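import Mathlib

/-! # Periodised intervals on the circle -/

set_option autoImplicit false
set_option linter.unusedSectionVars false

open MeasureTheory Filter Topology Set
open scoped ENNReal

namespace Pool.Agent.W750.Tor

/-- the points of the circle whose multiple by `M` is close to `0` -/
def per (M : ℕ) (ρ : ℝ) : Set UnitAddCircle := {y | ‖M • y‖ ≤ ρ}

theorem isClosed_per (M : ℕ) (ρ : ℝ) : IsClosed (per M ρ) :=
  isClosed_le (by fun_prop) continuous_const

theorem measurableSet_per (M : ℕ) (ρ : ℝ) : MeasurableSet (per M ρ) := (isClosed_per M ρ).measurableSet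

theorem volume_per (M : ℕ) (hM : 1 ≤ M) (ρ : ℝ) (h1 : ρ ≤ 1 / 2) :
    volume (per M ρ) = ENNReal.ofReal (2 * ρ) := by
  have hp : MeasurePreserving (fun y : UnitAddCircle => M • y) volume volume := by
    have h := MeasureTheory.Measure.measurePreserving_zsmul (volume : Measure UnitAddCircle)
      (n := (M : ℤ)) (by exact_mod_cast (by omega : M ≠ 0))
    have e : (fun y : UnitAddCircle => M • y) = fun y => (M : ℤ) • y := by
      funext y; rw [natCast_zsmul]
    rw [e]; exact h
  have e : per M ρ = (fun y : UnitAddCircle => M • y) ⁻¹' Metric.closedBall 0 ρ := by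
    ext y
    simp [per]
  rw [e, hp.measure_preimage (Metric.isClosed_closedBall.measurableSet).nullMeasurableSet,
    AddCircle.volume_closedBall]
  congr 1
  exact min_eq_right (by linarith)

/-- the number of points of a grid in an arc -/
theorem card_grid_le (M : ℕ) (hM : 1 ≤ M) (y x : UnitAddCircle) (r : ℝ) (hr : 0 ≤ r) :
    (((Finset.range M).filter fun m : ℕ => ‖y - ((m / M : ℝ) : UnitAddCircle) - x‖ ≤ r).card : ℝ) ≤
      2 * r * M + 1 := by
  classical
  obtain ⟨t, ht⟩ := QuotientAddGroup.mk_surjective (y - x)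
  have hM' : (0 : ℝ) < M := by exact_mod_cast hM
  have hkey : ∀ m ∈ (Finset.range M).filter
      (fun m : ℕ => ‖y - ((m / M : ℝ) : UnitAddCircle) - x‖ ≤ r),
      ∃ n : ℤ, n % M = m ∧ t * M - r * M ≤ n ∧ (n : ℝ) ≤ t * M + r * M := by
    intro m hm
    rw [Finset.mem_filter, Finset.mem_range] at hm
    obtain ⟨hm1, hm2⟩ := hm
    have e1 : y - ((m / M : ℝ) : UnitAddCircle) - x = ((t - m / M : ℝ) : UnitAddCircle) := by
      have : ((t : ℝ) : UnitAddCircle) = y - x := ht
      rw [AddCircle.coe_sub, this]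
      abel
    rw [e1, UnitAddCircle.norm_eq] at hm2
    set z := round (t - m / M : ℝ) with hz
    refine ⟨m + z * M, ?_, ?_, ?_⟩
    · rw [Int.add_mul_emod_self_right]
      exact Int.emod_eq_of_lt (by positivity) (by exact_mod_cast hm1)
    · have h := (abs_le.1 hm2).2
      push_cast
      have h2 : (t - m / M - z) * M ≤ r * M := by gcongr
      have h3 : (t - m / M - z) * M = t * M - m - z * M := by field_simp
      linarith
    · have h := (abs_le.1 hm2).1
      push_cast
      have h2 : -r * M ≤ (t - m / M - z) * M := by gcongr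
      have h3 : (t - m / M - z) * M = t * M - m - z * M := by field_simp
      linarith
  choose! f hf1 hf2 hf3 using hkey
  have hinj : Set.InjOn f ((Finset.range M).filter
      (fun m : ℕ => ‖y - ((m / M : ℝ) : UnitAddCircle) - x‖ ≤ r)) := by
    intro a ha b hb hab
    have h1 := hf1 a ha
    have h2 := hf1 b hb
    rw [hab, h2] at h1
    exact_mod_cast h1.symm
  have hsub : ((Finset.range M).filter
      (fun m : ℕ => ‖y - ((m / M : ℝ) : UnitAddCircle) - x‖ ≤ r)).image f ⊆
      Finset.Icc ⌈t * M - r * M⌉ ⌊t * M + r * M⌋ := by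
    intro n hn
    obtain ⟨m, hm, rfl⟩ := Finset.mem_image.1 hn
    rw [Finset.mem_Icc]
    exact ⟨Int.ceil_le.2 (hf2 m hm), Int.le_floor.2 (hf3 m hm)⟩
  have hcard := Finset.card_le_card hsub
  rw [Finset.card_image_of_injOn hinj, Int.card_Icc] at hcard
  have h1 : (((⌊t * M + r * M⌋ + 1 - ⌈t * M - r * M⌉).toNat : ℕ) : ℝ) ≤ 2 * r * M + 1 := by
    have h2 : (((⌊t * M + r * M⌋ + 1 - ⌈t * M - r * M⌉ : ℤ)) : ℝ) ≤ 2 * r * M + 1 := by
      push_cast
      have h3 := Int.floor_le (t * M + r * M)
      have h4 := Int.le_ceil (t * M - r * M)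
      linarith
    rcases le_total 0 (⌊t * M + r * M⌋ + 1 - ⌈t * M - r * M⌉) with h5 | h5
    · have h6 : (((⌊t * M + r * M⌋ + 1 - ⌈t * M - r * M⌉).toNat : ℕ) : ℝ) =
          (((⌊t * M + r * M⌋ + 1 - ⌈t * M - r * M⌉ : ℤ)) : ℝ) := by
        exact_mod_cast congrArg (fun z : ℤ => (z : ℝ)) (Int.toNat_of_nonneg h5)
      rw [h6]; exact h2
    · rw [Int.toNat_of_nonpos h5]
      push_cast
      positivity
  refine le_trans ?_ h1
  exact_mod_cast hcard

theorem smul_grid (M : ℕ) (hM : 1 ≤ M) (m : ℕ) : M • ((m / M : ℝ) : UnitAddCircle) = 0 := by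
  have h1 : M • ((m / M : ℝ) : UnitAddCircle) = ((M • (m / M : ℝ) : ℝ) : UnitAddCircle) := by
    rw [AddCircle.coe_nsmul]
  rw [h1, nsmul_eq_mul, mul_div_cancel₀ _ (by exact_mod_cast (by omega : M ≠ 0))]
  have h2 : ((m : ℝ) : UnitAddCircle) = ((m • (1 : ℝ) : ℝ) : UnitAddCircle) := by simp
  rw [h2, AddCircle.coe_nsmul, AddCircle.coe_period, smul_zero]

theorem volume_per_inter_le (M : ℕ) (hM : 1 ≤ M) (ρ : ℝ) (h0 : 0 < ρ) (h1 : ρ ≤ 1 / 2)
    (x : UnitAddCircle) (r : ℝ) (hr : 0 ≤ r) :
    volume (per M ρ ∩ Metric.closedBall x r) ≤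
      ENNReal.ofReal ((2 * r + 1 / M) * (2 * ρ)) := by
  classical
  have hM' : (0 : ℝ) < M := by exact_mod_cast hM
  set A := per M ρ with hA
  have hAm : MeasurableSet A := measurableSet_per M ρ
  let B : ℕ → Set UnitAddCircle := fun m => {y | ‖y - ((m / M : ℝ) : UnitAddCircle) - x‖ ≤ r}
  have hBm : ∀ m, MeasurableSet (B m) := fun m =>
    (isClosed_le (by fun_prop) continuous_const).measurableSet
  have hinv : ∀ m, volume (A ∩ B m) = volume (A ∩ Metric.closedBall x r) := by
    intro m
    have h := measure_preimage_add_right (volume : Measure UnitAddCircle)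
      (-((m / M : ℝ) : UnitAddCircle)) (A ∩ Metric.closedBall x r)
    rw [← h]
    congr 1
    ext y
    simp only [mem_inter_iff, mem_preimage, hA, per, B, mem_ofPred_eq, Metric.mem_closedBall,
      dist_eq_norm, ← sub_eq_add_neg, smul_sub, smul_grid M hM m, sub_zero]
  have hsum : (M : ℝ≥0∞) * volume (A ∩ Metric.closedBall x r) ≤
      ENNReal.ofReal (2 * r * M + 1) * volume A := by
    calc (M : ℝ≥0∞) * volume (A ∩ Metric.closedBall x r)
        = ∑ m ∈ Finset.range M, volume (A ∩ B m) := by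
          rw [Finset.sum_congr rfl (fun m _ => hinv m), Finset.sum_const, Finset.card_range,
            nsmul_eq_mul]
      _ = ∑ m ∈ Finset.range M, ∫⁻ y in A, (B m).indicator (fun _ => (1 : ℝ≥0∞)) y := by
          refine Finset.sum_congr rfl fun m _ => ?_
          rw [lintegral_indicator (hBm m), Measure.restrict_restrict (hBm m), lintegral_one,
            Measure.restrict_apply MeasurableSet.univ, univ_inter, inter_comm]
      _ = ∫⁻ y in A, ∑ m ∈ Finset.range M, (B m).indicator (fun _ => (1 : ℝ≥0∞)) y := by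
          rw [lintegral_finsetSum _ (fun m _ => (measurable_const.indicator (hBm m)))]
      _ ≤ ∫⁻ _ in A, ENNReal.ofReal (2 * r * M + 1) := by
          refine lintegral_mono fun y => ?_
          have h2 : ∑ m ∈ Finset.range M, (B m).indicator (fun _ => (1 : ℝ≥0∞)) y =
              (((Finset.range M).filter
                (fun m : ℕ => ‖y - ((m / M : ℝ) : UnitAddCircle) - x‖ ≤ r)).card : ℝ≥0∞) := by
            rw [Finset.card_filter, Nat.cast_sum]
            refine Finset.sum_congr rfl fun m _ => ?_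
            by_cases hm : ‖y - ((m / M : ℝ) : UnitAddCircle) - x‖ ≤ r
            · rw [if_pos hm, indicator_of_mem (show y ∈ B m from hm), Nat.cast_one]
            · rw [if_neg hm, indicator_of_notMem (show y ∉ B m from hm), Nat.cast_zero]
          rw [h2, ← ENNReal.ofReal_natCast]
          exact ENNReal.ofReal_le_ofReal (card_grid_le M hM y x r hr)
      _ = ENNReal.ofReal (2 * r * M + 1) * volume A := by
          rw [lintegral_const, Measure.restrict_apply MeasurableSet.univ, univ_inter]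
  rw [volume_per M hM ρ h1] at hsum
  have h3 : volume (A ∩ Metric.closedBall x r) ≤
      (M : ℝ≥0∞)⁻¹ * (ENNReal.ofReal (2 * r * M + 1) * ENNReal.ofReal (2 * ρ)) := by
    rw [← ENNReal.div_eq_inv_mul, ENNReal.le_div_iff_mul_le (Or.inl (by simp; omega))
      (Or.inl (by simp)), mul_comm]
    exact hsum
  refine h3.trans ?_
  rw [← ENNReal.ofReal_mul (by positivity), ← ENNReal.ofReal_natCast, ← ENNReal.ofReal_inv_of_pos hM',
    ← ENNReal.ofReal_mul (by positivity)]
  refine ENNReal.ofReal_le_ofReal (le_of_eq ?_)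
  field_simp

/-- the normalised measure on the periodised interval -/
noncomputable def nu (M : ℕ) (ρ : ℝ) : Measure UnitAddCircle :=
  (ENNReal.ofReal (2 * ρ))⁻¹ • volume.restrict (per M ρ)

theorem isProb_nu (M : ℕ) (hM : 1 ≤ M) (ρ : ℝ) (h0 : 0 < ρ) (h1 : ρ ≤ 1 / 2) :
    IsProbabilityMeasure (nu M ρ) := by
  refine ⟨?_⟩
  rw [nu, Measure.smul_apply, Measure.restrict_apply MeasurableSet.univ, univ_inter,
    volume_per M hM ρ h1, smul_eq_mul]
  exact ENNReal.inv_mul_cancel (by simpa using h0) ENNReal.ofReal_ne_top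

theorem nu_closedBall_le (M : ℕ) (hM : 1 ≤ M) (ρ : ℝ) (h0 : 0 < ρ) (h1 : ρ ≤ 1 / 2)
    (x : UnitAddCircle) (r : ℝ) (hr : 0 ≤ r) :
    nu M ρ (Metric.closedBall x r) ≤ ENNReal.ofReal (2 * r + 1 / M) := by
  have hM' : (0 : ℝ) < M := by exact_mod_cast hM
  rw [nu, Measure.smul_apply, Measure.restrict_apply Metric.isClosed_closedBall.measurableSet,
    inter_comm, smul_eq_mul]
  refine (mul_le_mul_right (volume_per_inter_le M hM ρ h0 h1 x r hr) _).trans ?_
  rw [← ENNReal.ofReal_inv_of_pos (by positivity), ← ENNReal.ofReal_mul (by positivity)]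
  refine ENNReal.ofReal_le_ofReal (le_of_eq ?_)
  field_simp

theorem nu_closedBall_le' (M : ℕ) (ρ : ℝ) (h0 : 0 < ρ) (x : UnitAddCircle) (r : ℝ) :
    nu M ρ (Metric.closedBall x r) ≤ ENNReal.ofReal (r / ρ) := by
  rw [nu, Measure.smul_apply, smul_eq_mul]
  have h2 : volume.restrict (per M ρ) (Metric.closedBall x r) ≤ ENNReal.ofReal (2 * r) := by
    refine (Measure.restrict_apply_le _ _).trans ?_
    rw [AddCircle.volume_closedBall]
    exact ENNReal.ofReal_le_ofReal (min_le_right _ _)
  refine (mul_le_mul_right h2 _).trans ?_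
  rw [← ENNReal.ofReal_inv_of_pos (by positivity), ← ENNReal.ofReal_mul (by positivity)]
  refine ENNReal.ofReal_le_ofReal (le_of_eq ?_)
  field_simp

theorem ae_nu (M : ℕ) (ρ : ℝ) : ∀ᵐ y ∂(nu M ρ), ‖M • y‖ ≤ ρ := by
  rw [nu]
  refine Measure.ae_smul_measure ?_ _
  exact ae_restrict_mem (measurableSet_per M ρ)

end Pool.Agent.W750.Tor
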